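import Pool.Agent.Run7.h820.Blow7

/-!
There is an absolute constant `c > 0` with `liminf A_n^{(p)} n^{1-2p} ≥ c (4p-1)^{-1/2}` for all
`1/4 < p < 1/2`.
-/

theorem Pool.Agent.Results.MP_a1ed50_an.BlowUpAtQuarter.result :
    ∃ c : ℝ, 0 < c ∧ ∀ p : ℝ, 1 / 4 < p → p < 1 / 2 →
      ENNReal.ofReal (c / Real.sqrt (4 * p - 1)) ≤
        Filter.liminf
          (fun n : ℕ => Pool.Agent.Run7.h820.A p n * ENNReal.ofReal ((n : ℝ) ^ (1 - 2 * p)))
          Filter.atTop :=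
  ⟨Pool.Agent.Run7.h820.ce0 / 24, by unfold Pool.Agent.Run7.h820.ce0; positivity,
    fun _ hp hp2 => Pool.Agent.Run7.h820.blow_up hp hp2⟩
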