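import Pool.Agent.Run7.h820.Strict4

/-!
For every real `p` with `1/2 ≤ p < 1` one has `liminf A_n^{(p)} n^{1-2p} > 4^p / Γ(2p)`.
-/

theorem Pool.Agent.Results.MP_a1ed50_an.LimitAboveKoebe.result :
    ∀ p : ℝ, 1 / 2 ≤ p → p < 1 →
      ENNReal.ofReal (4 ^ p / Real.Gamma (2 * p)) <
        Filter.liminf
          (fun n : ℕ => Pool.Agent.Run7.h820.A p n * ENNReal.ofReal ((n : ℝ) ^ (1 - 2 * p)))
          Filter.atTop :=
  fun _ hp hp1 => Pool.Agent.Run7.h820.liminf_gt hp hp1
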