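import Pool.Agent.Run7.h820.Final

/-!
For every real `p` with `1/2 ≤ p < 1` the sequence `A_n^{(p)} n^{1-2p}` converges to a finite
and strictly positive limit `K_p`.
-/

theorem Pool.Agent.Results.MP_a1ed50_an.LimitHalfOne.result :
    ∀ p : ℝ, 1 / 2 ≤ p → p < 1 → ∃ K : ℝ, 0 < K ∧
      Filter.Tendsto (fun n : ℕ => Pool.Agent.Run7.h820.A p n * ENNReal.ofReal ((n : ℝ) ^ (1 - 2 * p)))
        Filter.atTop (nhds (ENNReal.ofReal K)) :=
  fun _ hp hp1 => Pool.Agent.Run7.h820.main hp hp1
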